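import Pool.Agent.Lib.MP_d81877_alCh.Chain
import Pool.Agent.Lib.MP_d81877_alZm.Membership

/-!
MP_d81877_al, part D, module Z1 (helper9): the chain calculus satisfies the four laws of
`D818Zm` (lists now in the usual order, the last site is the last element).
-/

namespace D81877Ch

namespace Cliff

variable {ι A M : Type*} [CommRing A] [AddCommGroup M] [Module A M] (C : Cliff ι A M)

/-- the word of a list in the usual order -/
def Pw (Q : List ι) : M := C.P Q.reverse
/-- `e Θ` of a list in the usual order -/
def aw (Q : List ι) : M := C.a Q.reverse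
/-- `Θ` of a list in the usual order -/
def tw (Q : List ι) : M := C.t Q.reverse

theorem tw_nil : C.tw [] = C.o := rfl
theorem aw_nil : C.aw [] = 0 := rfl

theorem tw_append (W : List ι) (x : ι) :
    C.tw (W ++ [x]) = C.E x (C.tw W) + ((W.length : A) * C.f x) • C.tw W
      + C.f x • C.E x (C.aw W) := by
  simp [tw, aw, t_cons]

theorem aw_append (W : List ι) (x : ι) :
    C.aw (W ++ [x]) = C.tw W + C.E x (C.aw W) + (((W.length : A) + 1) * C.f x) • C.aw W := by
  simp [tw, aw, a_cons]

theorem Pw_eq (W : List ι) : C.Pw W = C.D (C.aw W) := rfl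

theorem e_tw (W : List ι) : C.e (C.tw W) = C.aw W := C.e_t _
theorem e_aw (W : List ι) : C.e (C.aw W) = 0 := C.e_a _

theorem lawT (V : Finset ι) : D818Zm.LawT C.f C.Pw V := by
  intro W h1 h2 _ x _ y _ _ _ _
  have := C.P_T2 x y W.reverse (by simpa using h2) (by simpa using h1)
  simpa [Pw] using this

theorem lawK (V : Finset ι) : D818Zm.LawK C.f C.Pw V := by
  intro W h1 h2 _ x _ y _ z _ hx hy hz hxy hxz hyz
  have := C.P_K x y z hxy hyz hxz W.reverse (by simpa using h2) (by simpa using hx)
    (by simpa using hy) (by simpa using hz)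
  simpa [Pw] using this

theorem lawI (V : Finset ι) : D818Zm.LawI C.f C.E C.Pw V := by
  intro Q h1 h2 _ x _ y _ hx hy hxy
  have := C.rho_P_front y x (Ne.symm hxy) Q.reverse (by simpa using hy) (by simpa using hx)
  have h3 : C.rho y x (C.P Q.reverse) = D818Zm.rho C.f C.E x y (C.Pw Q) := by
    rw [C.rho_comm, C.rho_apply]
    rfl
  rw [← h3, this]
  simp [Pw]

theorem lawA (V : Finset ι) :
    D818Zm.LawA C.f C.E C.aw (fun Q => C.D (C.tw Q)) C.Pw V := by
  intro Y _ h2 _ x _ _
  have := C.P_cons_odd x Y.reverse (by simpa using h2)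
  simpa [Pw, aw, tw] using this

end Cliff

end D81877Ch
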