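import Mathlib

/-!
MP_d81877_al, part D, module Z1 (helper9): the chain calculus in the four-letter model.

Abstract setting: a commutative ring `A` with `2 = 0` acting on `M`, square zero scalars `f x`,
operators `E x`, `D`, `e` and a vacuum vector `o`.  Lists are read with the LAST site of the chain
as head (so `x :: W` is the chain `W` followed by `x`).
-/

namespace D81877Ch

/-- The operator model of the four letter space. -/
structure Cliff (ι A M : Type*) [CommRing A] [AddCommGroup M] [Module A M] where
  two : (2 : A) = 0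
  f : ι → A
  ff : ∀ x, f x * f x = 0
  E : ι → M →ₗ[A] M
  D : M →ₗ[A] M
  e : M →ₗ[A] M
  o : M
  EE : ∀ x y w, x ≠ y → E x (E y w) = E y (E x w) + (f x * f y) • w
  DE : ∀ x w, D (E x w) = E x (D w) + f x • w
  DD : ∀ w, D (D w) = 0
  eE : ∀ x w, e (E x w) = E x (e w) + w
  ee : ∀ w, e (e w) = 0
  De : ∀ w, D (e w) = e (D w)
  Do : D o = 0
  eo : e o = 0

variable {ι A M : Type*} [CommRing A] [AddCommGroup M] [Module A M] (C : Cliff ι A M)

namespace Cliff

/-- the pair `(Θ, e Θ)` of a chain; the head of the list is the last site -/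
def ta : List ι → M × M
  | [] => (C.o, 0)
  | x :: W =>
    (C.E x (ta W).1 + ((W.length : A) * C.f x) • (ta W).1 + C.f x • C.E x (ta W).2,
      (ta W).1 + C.E x (ta W).2 + (((W.length : A) + 1) * C.f x) • (ta W).2)

/-- `Θ` -/
def t (W : List ι) : M := (C.ta W).1
/-- `e Θ` -/
def a (W : List ι) : M := (C.ta W).2
/-- the chain `P(W) = D e Θ` -/
def P (W : List ι) : M := C.D (C.a W)
/-- the sum of the `f` of the sites -/
def F (W : List ι) : A := (W.map C.f).sum

theorem t_nil : C.t [] = C.o := rfl
theorem a_nil : C.a [] = 0 := rfl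
theorem P_nil : C.P [] = 0 := by simp [P, a_nil]
theorem F_nil : C.F [] = 0 := rfl
theorem F_cons (x : ι) (W : List ι) : C.F (x :: W) = C.f x + C.F W := by simp [F]
theorem F_append (V W : List ι) : C.F (V ++ W) = C.F V + C.F W := by simp [F]
theorem F_reverse (W : List ι) : C.F W.reverse = C.F W := by
  simp [F]

theorem t_cons (x : ι) (W : List ι) :
    C.t (x :: W) = C.E x (C.t W) + ((W.length : A) * C.f x) • C.t W + C.f x • C.E x (C.a W) := rfl
theorem a_cons (x : ι) (W : List ι) :
    C.a (x :: W) = C.t W + C.E x (C.a W) + (((W.length : A) + 1) * C.f x) • C.a W := rfl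

include C in
theorem twoM (w : M) : w + w = 0 := by
  have : w + w = (2 : A) • w := by rw [two_smul]
  rw [this, C.two, zero_smul]

theorem e_t_a (W : List ι) : C.e (C.t W) = C.a W ∧ C.e (C.a W) = 0 := by
  induction W with
  | nil => simp [t_nil, a_nil, C.eo]
  | cons x W ih =>
    obtain ⟨h1, h2⟩ := ih
    have htwo := C.two
    have hff := C.ff x
    refine ⟨?_, ?_⟩
    · rw [t_cons, a_cons]
      simp only [map_add, map_smul, C.eE, h1, h2, map_zero]
      match_scalars <;> grind
    · rw [a_cons]
      simp only [map_add, map_smul, C.eE, h1, h2, map_zero]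
      match_scalars; grind

theorem e_t (W : List ι) : C.e (C.t W) = C.a W := (C.e_t_a W).1
theorem e_a (W : List ι) : C.e (C.a W) = 0 := (C.e_t_a W).2

include C in
theorem cast_even {n : ℕ} (h : Even n) : (n : A) = 0 := by
  obtain ⟨k, rfl⟩ := h
  have := C.two
  push_cast
  linear_combination (k : A) * this

include C in
theorem cast_odd {n : ℕ} (h : Odd n) : (n : A) = 1 := by
  obtain ⟨k, rfl⟩ := h
  have := C.two
  push_cast
  linear_combination (k : A) * this

/-- append formula, odd length -/
theorem P_cons_odd (x : ι) (W : List ι) (h : Odd W.length) :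
    C.P (x :: W) = C.f x • C.a W + C.D (C.t W) + C.E x (C.P W) := by
  have h1 := C.cast_odd h
  have htwo := C.two
  rw [P, a_cons, h1]
  simp only [map_add, map_smul, C.DE, P]
  match_scalars <;> grind

/-- append formula, even length -/
theorem P_cons_even (x : ι) (W : List ι) (h : Even W.length) :
    C.P (x :: W) = C.f x • C.a W + C.D (C.t W) + C.E x (C.P W) + C.f x • C.P W := by
  have h1 := C.cast_even h
  have htwo := C.two
  rw [P, a_cons, h1]
  simp only [map_add, map_smul, C.DE, P]
  match_scalars <;> grind

theorem D_P (W : List ι) : C.D (C.P W) = 0 := C.DD _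
theorem e_P (W : List ι) : C.e (C.P W) = 0 := by
  rw [P, ← C.De, C.e_a, map_zero]

theorem FF (W : List ι) : C.F W * C.F W = 0 := by
  induction W with
  | nil => simp [F_nil]
  | cons x W ih =>
    rw [F_cons]
    linear_combination C.ff x + ih + C.f x * C.F W * C.two

/-- right multiplication by the two new first sites `x, y` -/
def XY (g : A) (x y : ι) : M →ₗ[A] M :=
  C.E x ∘ₗ C.E y + C.f y • (C.E x ∘ₗ C.D) + C.f x • (C.E y ∘ₗ C.D)
    + (C.f x * C.f y) • LinearMap.id + (g + C.f y) • (C.E x + C.E y)
    + ((g + C.f y) * (C.f x + C.f y)) • C.D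

theorem XY_apply (g : A) (x y : ι) (w : M) :
    C.XY g x y w = C.E x (C.E y w) + C.f y • C.E x (C.D w) + C.f x • C.E y (C.D w)
      + (C.f x * C.f y) • w + (g + C.f y) • (C.E x w + C.E y w)
      + ((g + C.f y) * (C.f x + C.f y)) • C.D w := by
  simp [XY]

/-- prepend two sites: the chain `x, y, W` -/
theorem ta_prepend (x y : ι) (hxy : x ≠ y) (W : List ι) (hx : x ∉ W) (hy : y ∉ W) :
    C.t (W ++ [y, x]) = C.XY (C.F W) x y (C.t W) ∧
    C.a (W ++ [y, x]) = C.XY (C.F W) x y (C.a W) + C.E x (C.t W) + C.E y (C.t W)
      + (C.f x + C.f y) • C.D (C.t W) := by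
  induction W with
  | nil =>
    have htwo := C.two
    have hx2 := C.ff x
    have hy2 := C.ff y
    have hE := C.EE x y C.o hxy
    simp only [List.nil_append, t_cons, a_cons, t_nil, a_nil, XY_apply, F_nil, map_zero, C.Do,
      smul_zero, add_zero, List.length_nil, List.length_cons, map_add, map_smul, hE]
    constructor
    · push_cast
      match_scalars <;> grind
    · push_cast
      match_scalars <;> grind
  | cons z W ih =>
    simp only [List.mem_cons, not_or] at hx hy
    obtain ⟨h1, h2⟩ := ih hx.2 hy.2
    have htwo := C.two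
    have hx2 := C.ff x
    have hy2 := C.ff y
    have hz2 := C.ff z
    have hF := C.FF W
    have hEx := fun w => C.EE x z w hx.1
    have hEy := fun w => C.EE y z w hy.1
    have hlen : (((W ++ [y, x]).length : ℕ) : A) = (W.length : A) := by
      simp only [List.length_append, List.length_cons, List.length_nil]
      push_cast
      linear_combination htwo
    rw [List.cons_append, t_cons, a_cons, h1, h2, hlen]
    constructor
    · rw [t_cons, F_cons]
      simp only [XY_apply, map_add, map_smul, C.DE, hEx, hEy, smul_add, smul_smul]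
      match_scalars <;> grind
    · rw [t_cons, a_cons, F_cons]
      simp only [XY_apply, map_add, map_smul, C.DE, hEx, hEy, smul_add, smul_smul]
      match_scalars <;> grind

/-- reversal of a chain of odd length -/
theorem t_reverse : ∀ W : List ι, Odd W.length → W.Nodup →
    C.t W.reverse = C.t W + C.D (C.t W) + C.F W • (C.a W + C.D (C.a W))
  | [], h, _ => by simp at h
  | [x], _, _ => by
    have htwo := C.two
    have hx2 := C.ff x
    simp only [List.reverse_singleton, t_cons, a_cons, t_nil, a_nil, F_cons, F_nil, map_zero,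
      C.Do, smul_zero, add_zero, List.length_nil, map_add, map_smul, C.DE]
    match_scalars <;> grind
  | z :: y :: W, h, hn => by
    have hodd : Odd W.length := by
      simp only [List.length_cons] at h
      rcases Nat.even_or_odd W.length with h' | h'
      · exact absurd h (by simpa [Nat.even_add_one, Nat.odd_add_one] using h')
      · exact h'
    simp only [List.nodup_cons, List.mem_cons, not_or] at hn
    obtain ⟨⟨hzy, hzW⟩, hyW, hW⟩ := hn
    have ih := t_reverse W hodd hW
    have htwo := C.two
    have hz2 := C.ff z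
    have hy2 := C.ff y
    have hF := C.FF W
    have hE := fun w => C.EE z y w hzy
    have h1 := C.cast_odd hodd
    have hlen : (((y :: W).length : ℕ) : A) = 0 := by
      rw [List.length_cons]
      push_cast
      rw [h1]
      linear_combination htwo
    have hrev : (z :: y :: W).reverse = W.reverse ++ [y, z] := by simp
    rw [hrev, (C.ta_prepend z y hzy W.reverse (by simpa using hzW) (by simpa using hyW)).1,
      F_reverse, ih, C.t_cons z (y :: W), C.a_cons z (y :: W), hlen, C.t_cons y W, C.a_cons y W,
      h1, F_cons, F_cons]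
    simp only [XY_apply, map_add, map_smul, C.DE, hE, C.DD, smul_add, smul_smul, map_zero,
      smul_zero, add_zero]
    match_scalars <;> grind

theorem a_reverse (W : List ι) (h : Odd W.length) (hn : W.Nodup) :
    C.a W.reverse = C.a W + C.P W := by
  rw [← C.e_t W.reverse, C.t_reverse W h hn]
  simp only [map_add, map_smul, C.e_t, C.e_a, ← C.De, map_zero, smul_zero, add_zero]
  rw [P]

theorem Dt_reverse (W : List ι) (h : Odd W.length) (hn : W.Nodup) :
    C.D (C.t W.reverse) = C.D (C.t W) + C.F W • C.P W := by
  rw [C.t_reverse W h hn]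
  simp only [map_add, map_smul, C.DD, add_zero]
  rw [P]

theorem P_reverse (W : List ι) (h : Odd W.length) (hn : W.Nodup) :
    C.P W.reverse = C.P W := by
  rw [P, C.a_reverse W h hn, map_add, C.D_P, add_zero, P]

/-- **(T)** -/
theorem P_T (x : ι) (W : List ι) (h : Odd W.length) (hn : W.Nodup) :
    (C.f x + C.F W) • C.P W = C.P (x :: W) + C.P (x :: W.reverse) := by
  have htwo := C.two
  rw [C.P_cons_odd x W h, C.P_cons_odd x W.reverse (by simpa using h), C.a_reverse W h hn,
    C.Dt_reverse W h hn, C.P_reverse W h hn]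
  match_scalars <;> grind

/-- **(T)** for two sites -/
theorem P_T2 (x y : ι) (W : List ι) (h : Odd W.length) (hn : W.Nodup) :
    (C.f x + C.f y) • C.P W = C.P (x :: W) + C.P (x :: W.reverse) + (C.P (y :: W)
      + C.P (y :: W.reverse)) := by
  have htwo := C.two
  have h1 := C.P_T x W h hn
  have h2 := C.P_T y W h hn
  rw [← h1, ← h2]
  match_scalars; grind

/-- two sites before plus two sites after, even length -/
theorem P_K2 (x y : ι) (hxy : x ≠ y) (W : List ι) (h : Even W.length) (hx : x ∉ W)
    (hy : y ∉ W) :
    C.P (W ++ [y, x]) + C.P (x :: y :: W) = (C.f x * C.f y) • C.P W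
      + C.F W • (C.f x • C.a W + C.E x (C.P W)) + C.F W • (C.f y • C.a W + C.E y (C.P W)) := by
  have htwo := C.two
  have hx2 := C.ff x
  have hy2 := C.ff y
  have hF := C.FF W
  have h0 := C.cast_even h
  have hlen : (((y :: W).length : ℕ) : A) = 1 := by
    rw [List.length_cons]
    push_cast
    rw [h0, zero_add]
  simp only [P, (C.ta_prepend x y hxy W hx hy).2, C.a_cons x (y :: W), hlen, C.t_cons y W,
    C.a_cons y W, h0, XY_apply, map_add, map_smul, C.DE, C.DD, smul_add, smul_smul, map_zero,
    smul_zero, add_zero]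
  match_scalars <;> grind

/-- **(K')** -/
theorem P_K (x y z : ι) (hxy : x ≠ y) (hyz : y ≠ z) (hxz : x ≠ z) (W : List ι)
    (h : Even W.length) (hx : x ∉ W) (hy : y ∉ W) (hz : z ∉ W) :
    (C.f x * C.f y + C.f x * C.f z + C.f y * C.f z) • C.P W =
      C.P (W ++ [y, x]) + C.P (x :: y :: W) + (C.P (W ++ [z, x]) + C.P (x :: z :: W))
      + (C.P (W ++ [z, y]) + C.P (y :: z :: W)) := by
  have htwo := C.two
  rw [C.P_K2 x y hxy W h hx hy, C.P_K2 y z hyz W h hy hz, C.P_K2 x z hxz W h hx hz]
  match_scalars <;> grind

/-- the dimer -/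
def rho (x y : ι) : M →ₗ[A] M :=
  (C.f x + C.f y) • (C.E x + C.E y) + (C.f x * C.f y) • LinearMap.id

theorem rho_apply (x y : ι) (w : M) :
    C.rho x y w = (C.f x + C.f y) • (C.E x w + C.E y w) + (C.f x * C.f y) • w := by
  simp [rho]

theorem rho_comm (x y : ι) : C.rho x y = C.rho y x := by
  ext w
  rw [rho_apply, rho_apply, add_comm (C.f x), add_comm (C.E x w), mul_comm (C.f x)]

theorem rho_D (x y : ι) (w : M) : C.D (C.rho x y w) = C.rho x y (C.D w) := by
  have htwo := C.two
  have hx2 := C.ff x
  have hy2 := C.ff y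
  simp only [rho_apply, map_add, map_smul, C.DE]
  match_scalars <;> grind

theorem rho_E (x y z : ι) (hzx : x ≠ z) (hzy : y ≠ z) (w : M) :
    C.rho x y (C.E z w) = C.E z (C.rho x y w) := by
  have htwo := C.two
  have hx2 := C.ff x
  have hy2 := C.ff y
  have h1 := fun w => C.EE x z w hzx
  have h2 := fun w => C.EE y z w hzy
  simp only [rho_apply, map_add, map_smul, h1, h2]
  match_scalars <;> grind

theorem ta_swap_nil (x y : ι) (hxy : x ≠ y) (W : List ι) :
    C.t (x :: y :: W) + C.t (y :: x :: W) = C.rho x y (C.t W) ∧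
    C.a (x :: y :: W) + C.a (y :: x :: W) = C.rho x y (C.a W) := by
  have htwo := C.two
  have hx2 := C.ff x
  have hy2 := C.ff y
  have hE := fun w => C.EE x y w hxy
  simp only [t_cons, a_cons, rho_apply, List.length_cons, map_add, map_smul, smul_add, hE]
  push_cast
  constructor
  · match_scalars <;> grind
  · match_scalars <;> grind

/-- **(Swap)** -/
theorem ta_swap (x y : ι) (hxy : x ≠ y) (B W : List ι) (hx : x ∉ B) (hy : y ∉ B) :
    C.t (B ++ x :: y :: W) + C.t (B ++ y :: x :: W) = C.rho x y (C.t (B ++ W)) ∧
    C.a (B ++ x :: y :: W) + C.a (B ++ y :: x :: W) = C.rho x y (C.a (B ++ W)) := by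
  induction B with
  | nil => exact C.ta_swap_nil x y hxy W
  | cons z B ih =>
    simp only [List.mem_cons, not_or] at hx hy
    obtain ⟨h1, h2⟩ := ih hx.2 hy.2
    have htwo := C.two
    have hl1 : (((B ++ x :: y :: W).length : ℕ) : A) = ((B ++ W).length : A) := by
      simp only [List.length_append, List.length_cons]
      push_cast
      linear_combination htwo
    have hl2 : (((B ++ y :: x :: W).length : ℕ) : A) = ((B ++ W).length : A) := by
      simp only [List.length_append, List.length_cons]
      push_cast
      linear_combination htwo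
    simp only [List.cons_append, t_cons, a_cons, hl1, hl2, map_add, map_smul]
    rw [C.rho_E x y z hx.1 hy.1, C.rho_E x y z hx.1 hy.1, ← h1, ← h2]
    simp only [map_add, smul_add]
    constructor <;> abel

theorem P_swap (x y : ι) (hxy : x ≠ y) (B W : List ι) (hx : x ∉ B) (hy : y ∉ B) :
    C.P (B ++ x :: y :: W) + C.P (B ++ y :: x :: W) = C.rho x y (C.P (B ++ W)) := by
  rw [P, P, P, ← map_add, (C.ta_swap x y hxy B W hx hy).2, C.rho_D]

/-- dimer insertion at the end of the chain -/
theorem rho_P (x y : ι) (hxy : x ≠ y) (W : List ι) :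
    C.rho x y (C.P W) = C.P (x :: y :: W) + C.P (y :: x :: W) := by
  simpa using (C.P_swap x y hxy [] W (by simp) (by simp)).symm

/-- dimer insertion in front of the chain -/
theorem rho_P_front (x y : ι) (hxy : x ≠ y) (W : List ι) (hx : x ∉ W) (hy : y ∉ W) :
    C.rho x y (C.P W) = C.P (W ++ [x, y]) + C.P (W ++ [y, x]) := by
  simpa using (C.P_swap x y hxy W [] hx hy).symm

end Cliff

end D81877Ch
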