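import Pool.Agent.Lib.MP_d81877_alCh.Bridge
import Pool.Agent.Lib.MP_d81877_alM.Defs

/-!
MP_d81877_al, part D, module Z1 (helper9): the commutative model `Z` with the operators
`E_x = ε_x + f_x ∑_{u > x} D_u` is an instance of the chain calculus.
-/

namespace D81877Ch

open Finset D81877ZF

section ops

variable {ι : Type*} [DecidableEq ι] {K : Type*} [Field K] [CharP K 2]

theorem d_th_self (z : ι) :
    (d z : Module.End K (Z ι K)) * th z = th z * d z + 1 := by
  calc (d z : Module.End K (Z ι K)) * th z
      = (d z * th z + th z * d z) + th z * d z := by rw [add_assoc, end_add_self, add_zero]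
    _ = th z * d z + 1 := by rw [d_th_same, add_comm]

theorem D_th (s : Finset ι) (z : ι) :
    (D s : Module.End K (Z ι K)) * th z = th z * D s + (if z ∈ s then f z else 0) := by
  unfold D
  have key : ∀ u ∈ s, (f u * d u * th z : Module.End K (Z ι K))
      = th z * (f u * d u) + (if u = z then f z else 0) := by
    intro u _
    by_cases h : u = z
    · subst h
      rw [if_pos rfl, mul_assoc, d_th_self, mul_add, mul_one, ← mul_assoc, (f_th_comm u u).eq,
        mul_assoc]
    · rw [if_neg h, add_zero, mul_assoc, (d_th_comm h).eq, ← mul_assoc, (f_th_comm u z).eq,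
        mul_assoc]
  rw [Finset.sum_mul, Finset.sum_congr rfl key, Finset.sum_add_distrib, ← Finset.mul_sum,
    Finset.sum_ite_eq']

theorem e_th (s : Finset ι) (z : ι) :
    (e s : Module.End K (Z ι K)) * th z = th z * e s + (if z ∈ s then 1 else 0) := by
  unfold e
  have key : ∀ u ∈ s, (d u * th z : Module.End K (Z ι K))
      = th z * d u + (if u = z then 1 else 0) := by
    intro u _
    by_cases h : u = z
    · subst h
      rw [if_pos rfl, d_th_self]
    · rw [if_neg h, add_zero, (d_th_comm h).eq]
  rw [Finset.sum_mul, Finset.sum_congr rfl key, Finset.sum_add_distrib, ← Finset.mul_sum,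
    Finset.sum_ite_eq' s z (fun _ => (1 : Module.End K (Z ι K)))]

theorem sum_sq_zero {R : Type*} [Ring R] (h2 : ∀ a : R, a + a = 0) (s : Finset ι) (F : ι → R)
    (hc : ∀ x y, Commute (F x) (F y)) (hs : ∀ x, F x * F x = 0) :
    (∑ x ∈ s, F x) * (∑ x ∈ s, F x) = 0 := by
  induction s using Finset.induction_on with
  | empty => simp
  | insert a s ha ih =>
    rw [Finset.sum_insert ha]
    have hcomm : Commute (F a) (∑ x ∈ s, F x) := Commute.sum_right _ _ _ fun x _ => hc a x
    have : (F a + ∑ x ∈ s, F x) * (F a + ∑ x ∈ s, F x)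
        = F a * F a + (F a * ∑ x ∈ s, F x + (∑ x ∈ s, F x) * F a)
          + (∑ x ∈ s, F x) * (∑ x ∈ s, F x) := by noncomm_ring
    rw [this, hs, ih, hcomm.eq, h2]
    simp

theorem D_sq (s : Finset ι) : (D s : Module.End K (Z ι K)) * D s = 0 := by
  unfold D
  refine sum_sq_zero end_add_self s _ (fun x y => ?_) fun x => ?_
  · exact ((f_comm x y).mul_right (f_d_comm x y)).mul_left
      (((f_d_comm y x).symm).mul_right (d_comm x y))
  · rw [mul_assoc, ← mul_assoc (d x), ← (f_d_comm x x).eq, mul_assoc (f x) (d x), d_sq, mul_zero,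
      mul_zero]

theorem e_sq (s : Finset ι) : (e s : Module.End K (Z ι K)) * e s = 0 := by
  unfold e
  exact sum_sq_zero end_add_self s _ (fun x y => d_comm x y) fun x => d_sq x

omit [CharP K 2] in
theorem e_D_gen (s s' : Finset ι) : Commute (e s : Module.End K (Z ι K)) (D s') := by
  unfold e
  exact Commute.sum_left _ _ _ fun x _ => d_D s' x

/-- the vacuum -/
def vac (ι : Type*) [DecidableEq ι] (K : Type*) [Field K] : Z ι K :=
  fun A B => if A = ∅ ∧ B = ∅ then 1 else 0

omit [CharP K 2] in
theorem d_vac (x : ι) : d x (vac ι K) = 0 := by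
  funext A B
  simp only [d_apply, vac, Pi.zero_apply]
  split_ifs with h1 h2
  · rfl
  · exact absurd h2.1 (Finset.insert_ne_empty _ _)
  · rfl

omit [CharP K 2] in
theorem D_vac (s : Finset ι) : D s (vac ι K) = 0 := by
  unfold D
  rw [LinearMap.sum_apply]
  refine Finset.sum_eq_zero fun x _ => ?_
  rw [Module.End.mul_apply, d_vac, map_zero]

omit [CharP K 2] in
theorem e_vac (s : Finset ι) : e s (vac ι K) = 0 := by
  unfold e
  rw [LinearMap.sum_apply]
  exact Finset.sum_eq_zero fun x _ => d_vac x

omit [CharP K 2] in
theorem D_D_comm (s s' : Finset ι) : Commute (D s : Module.End K (Z ι K)) (D s') := by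
  change Commute (D s : Module.End K (Z ι K)) (∑ x ∈ s', f x * d x)
  exact Commute.sum_right _ _ _ fun u _ => (f_D s u).symm.mul_right (d_D s u).symm

/-- commutation of two twisted multiplications -/
theorem EE_aux (s s' : Finset ι) (x y : ι) :
    (th x + f x * D s : Module.End K (Z ι K)) * (th y + f y * D s')
      = (th y + f y * D s') * (th x + f x * D s)
        + ((if y ∈ s then f x * f y else 0) + (if x ∈ s' then f x * f y else 0)) := by
  have h1 : (D s : Module.End K (Z ι K)) * th y = th y * D s + (if y ∈ s then f y else 0) :=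
    D_th s y
  have h2 : (th x : Module.End K (Z ι K)) * D s' = D s' * th x + (if x ∈ s' then f x else 0) := by
    rw [D_th, add_assoc, end_add_self, add_zero]
  have h3 := (f_D (K := K) s y).eq
  have h4 := (f_D (K := K) s' x).eq
  have h5 : (D s : Module.End K (Z ι K)) * D s' = D s' * D s := (D_D_comm s s').eq
  have h6 := (f_comm (K := K) x y).eq
  have h7 := (th_comm (K := K) x y).eq
  have h8 := (f_th_comm (K := K) y x).eq
  have h9 := (f_th_comm (K := K) x y).eq
  have e1 : (th x : Module.End K (Z ι K)) * (f y * D s')
      = f y * D s' * th x + (if x ∈ s' then f x * f y else 0) := by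
    rw [← mul_assoc, ← h8, mul_assoc, h2, mul_add, mul_assoc]
    split_ifs
    · rw [h6]
    · rw [mul_zero]
  have e2 : (f x * D s : Module.End K (Z ι K)) * th y
      = th y * (f x * D s) + (if y ∈ s then f x * f y else 0) := by
    rw [mul_assoc, h1, mul_add, ← mul_assoc, h9, mul_assoc]
    split_ifs
    · rfl
    · rw [mul_zero]
  have e3 : (f x * D s : Module.End K (Z ι K)) * (f y * D s') = f y * D s' * (f x * D s) := by
    calc (f x * D s : Module.End K (Z ι K)) * (f y * D s')
        = f x * (D s * f y) * D s' := by noncomm_ring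
      _ = (f x * f y) * (D s * D s') := by rw [← h3]; noncomm_ring
      _ = f y * (f x * D s') * D s := by rw [h5, h6]; noncomm_ring
      _ = f y * D s' * (f x * D s) := by rw [h4]; noncomm_ring
  rw [add_mul, mul_add, mul_add, e1, e2, e3, h7]
  noncomm_ring

end ops

section alg

variable (ι : Type*) [DecidableEq ι] (K : Type*) [Field K]

/-- the commutative algebra generated by the multiplications `f_x` -/
def AF : Type _ := ↥(Algebra.adjoin K (Set.range (D81877ZF.f : ι → Module.End K (Z ι K))))

noncomputable instance : CommRing (AF ι K) :=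
  Algebra.adjoinCommRingOfComm K (by
    rintro _ ⟨x, rfl⟩ _ ⟨y, rfl⟩
    exact (f_comm x y).eq)

noncomputable instance : Module (AF ι K) (Z ι K) :=
  inferInstanceAs (Module
    (↥(Algebra.adjoin K (Set.range (D81877ZF.f : ι → Module.End K (Z ι K))))) (Z ι K))

/-- the operator of an element of `AF` -/
def AF.op {ι : Type*} [DecidableEq ι] {K : Type*} [Field K] (a : AF ι K) :
    Module.End K (Z ι K) := a.1

variable {ι K}

theorem AF.smul_def (a : AF ι K) (u : Z ι K) : a • u = a.op u := rfl

theorem AF.op_mul (a b : AF ι K) : (a * b).op = a.op * b.op := rfl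
theorem AF.op_add (a b : AF ι K) : (a + b).op = a.op + b.op := rfl
theorem AF.op_one : (1 : AF ι K).op = 1 := rfl
theorem AF.op_zero : (0 : AF ι K).op = 0 := rfl
theorem AF.op_injective : Function.Injective (AF.op : AF ι K → Module.End K (Z ι K)) :=
  Subtype.val_injective

/-- the element `f_x` -/
def AF.f (x : ι) : AF ι K := ⟨D81877ZF.f x, Algebra.subset_adjoin ⟨x, rfl⟩⟩

theorem AF.op_f (x : ι) : (AF.f x : AF ι K).op = D81877ZF.f x := rfl

theorem AF.f_smul (x : ι) (u : Z ι K) : (AF.f x : AF ι K) • u = D81877ZF.f x u := rfl

theorem AF.op_commute (a : AF ι K) (T : Module.End K (Z ι K))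
    (hT : ∀ x, Commute (D81877ZF.f x) T) : Commute a.op T := by
  obtain ⟨a, ha⟩ := a
  change Commute a T
  induction ha using Algebra.adjoin_induction with
  | mem x hx =>
    obtain ⟨y, rfl⟩ := hx
    exact hT y
  | algebraMap r => exact Algebra.commute_algebraMap_left r T
  | add x y _ _ hx hy => exact hx.add_left hy
  | mul x y _ _ hx hy => exact hx.mul_left hy

/-- an operator commuting with all `f_x` as an `AF`-linear map -/
def AF.lin (T : Module.End K (Z ι K)) (hT : ∀ x, Commute (D81877ZF.f x) T) :
    Z ι K →ₗ[AF ι K] Z ι K where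
  toFun := T
  map_add' := map_add T
  map_smul' a u := by
    have := (AF.op_commute a T hT).eq
    have h2 := congrArg (fun S : Module.End K (Z ι K) => S u) this
    exact h2.symm

theorem AF.lin_apply (T : Module.End K (Z ι K)) (hT : ∀ x, Commute (D81877ZF.f x) T)
    (u : Z ι K) : AF.lin T hT u = T u := rfl

theorem AF.two_eq_zero [CharP K 2] : (2 : AF ι K) = 0 := by
  apply AF.op_injective
  have : (2 : AF ι K) = 1 + 1 := by norm_num
  rw [this, AF.op_add, AF.op_zero, end_add_self]

instance [CharP K 2] : CharP (AF ι K) 2 := by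
  refine CharTwo.of_one_ne_zero_of_two_eq_zero ?_ AF.two_eq_zero
  intro h
  have h1 := congrArg (fun a : AF ι K => a.op (vac ι K) ∅ ∅) h
  simp [AF.op_one, AF.op_zero, vac] at h1

end alg

section inst

variable (ι : Type*) [LinearOrder ι] [Fintype ι] (K : Type*) [Field K] [CharP K 2]

theorem f_EE {ι : Type*} [LinearOrder ι] {K : Type*} [Field K] (V : Finset ι) (x y : ι) :
    Commute (D81877ZF.f y : Module.End K (Z ι K)) (D81877M.EE V x) :=
  (f_th_comm y x).add_right ((f_comm y x).mul_right (f_D _ y))

/-- the chain calculus on the commutative model -/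
noncomputable def clZ : Cliff ι (AF ι K) (Z ι K) where
  two := AF.two_eq_zero
  f := AF.f
  ff x := AF.op_injective (by rw [AF.op_mul, AF.op_f, f_sq, AF.op_zero])
  E x := AF.lin (D81877M.EE univ x) fun y => f_EE univ x y
  D := AF.lin (D univ) fun y => f_D univ y
  e := AF.lin (e univ) fun y => by
    unfold D81877ZF.e
    exact Commute.sum_right _ _ _ fun z _ => f_d_comm y z
  o := vac ι K
  EE x y w hxy := by
    have h := EE_aux (K := K) (univ.filter fun u => x < u) (univ.filter fun u => y < u) x y
    have h2 : ((if y ∈ (univ.filter fun u => x < u) then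
          (D81877ZF.f x * D81877ZF.f y : Module.End K (Z ι K)) else 0)
        + (if x ∈ (univ.filter fun u => y < u) then D81877ZF.f x * D81877ZF.f y else 0))
        = D81877ZF.f x * D81877ZF.f y := by
      rcases lt_or_gt_of_ne hxy with h' | h'
      · simp [h', not_lt.2 h'.le]
      · simp [h', not_lt.2 h'.le]
    rw [h2] at h
    exact congrArg (fun S : Module.End K (Z ι K) => S w) h
  DE x w := by
    have h : (D univ : Module.End K (Z ι K)) * D81877M.EE univ x
        = D81877M.EE univ x * D univ + D81877ZF.f x := by
      have h5 : (D univ : Module.End K (Z ι K)) * (D81877ZF.f x * D (univ.filter fun u => x < u))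
          = D81877ZF.f x * D (univ.filter fun u => x < u) * D univ := by
        exact ((f_D (K := K) univ x).symm.mul_right (D_D_comm _ _)).eq
      change D univ * (th x + D81877ZF.f x * D (univ.filter fun u => x < u))
        = (th x + D81877ZF.f x * D (univ.filter fun u => x < u)) * D univ + D81877ZF.f x
      rw [mul_add, D_th, if_pos (mem_univ x), h5, add_mul]
      abel
    exact congrArg (fun S : Module.End K (Z ι K) => S w) h
  DD w := congrArg (fun S : Module.End K (Z ι K) => S w) (D_sq univ)
  eE x w := by
    have h : (e univ : Module.End K (Z ι K)) * D81877M.EE univ x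
        = D81877M.EE univ x * e univ + 1 := by
      have h5 : (e univ : Module.End K (Z ι K)) * (D81877ZF.f x * D (univ.filter fun u => x < u))
          = D81877ZF.f x * D (univ.filter fun u => x < u) * e univ := by
        have hf : Commute (D81877ZF.f x : Module.End K (Z ι K)) (e univ) := by
          unfold D81877ZF.e
          exact Commute.sum_right _ _ _ fun z _ => f_d_comm x z
        exact (hf.symm.mul_right ((e_D_gen _ _))).eq
      change e univ * (th x + D81877ZF.f x * D (univ.filter fun u => x < u))
        = (th x + D81877ZF.f x * D (univ.filter fun u => x < u)) * e univ + 1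
      rw [mul_add, e_th, if_pos (mem_univ x), h5, add_mul]
      abel
    exact congrArg (fun S : Module.End K (Z ι K) => S w) h
  ee w := congrArg (fun S : Module.End K (Z ι K) => S w) (e_sq univ)
  De w := congrArg (fun S : Module.End K (Z ι K) => S w) (e_D univ).eq.symm
  Do := D_vac univ
  eo := e_vac univ

end inst

end D81877Ch
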